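import Mathlib
import Pool.Agent.helper2.WG.Defs
import Pool.Agent.helper2.WG.Main

set_option autoImplicit false

namespace Pool.Agent.Results.MP_d6aa4f_al.WeakGlobalDimOne

open Pool.Agent.helper2.WG

universe u

theorem result (A : Type u) [Ring A] : wGlDim (PowerSeries A) = 1 ↔
    Nontrivial A ∧ (∀ a : A, ∃ b : A, a * b * a = a) ∧
    ∀ (n : ℕ) (a b : ℕ → Matrix (Fin n) (Fin n) A), (∀ i j, a i * b j = 0) →
      ∃ t : Matrix (Fin n) (Fin n) A, (∀ i, a i * t = 0) ∧ ∀ j, t * b j = b j :=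
  main A

end Pool.Agent.Results.MP_d6aa4f_al.WeakGlobalDimOne
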